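import Mathlib

/-!
# Local sets and functions on the lattice `ℤ × ℤ`
-/

set_option autoImplicit false

namespace Pool.Agent.U237.Canc

/-- The patterns of `ψ` in the windows of radius `r` around `n` and `n'` agree, or agree after
exchanging the two symbols. -/
def Near (ψ : ℤ × ℤ → Bool) (r : ℕ) (n n' : ℤ × ℤ) : Prop :=
  (∀ v : ℤ × ℤ, |v.1| ≤ r → |v.2| ≤ r → ψ (n + v) = ψ (n' + v)) ∨
  (∀ v : ℤ × ℤ, |v.1| ≤ r → |v.2| ≤ r → ψ (n + v) = !ψ (n' + v))

/-- A set of lattice points is local if membership of `n` is determined by the pattern of `ψ` in a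
window of fixed size around `n`, up to exchanging the two symbols. -/
def LocalSet (ψ : ℤ × ℤ → Bool) (E : Set (ℤ × ℤ)) : Prop :=
  ∃ r : ℕ, ∀ n n', Near ψ r n n' → (n ∈ E ↔ n' ∈ E)

/-- The same for integer valued functions. -/
def LocalFn (ψ : ℤ × ℤ → Bool) (h : ℤ × ℤ → ℤ) : Prop :=
  ∃ r : ℕ, ∀ n n', Near ψ r n n' → h n = h n'

variable {ψ : ℤ × ℤ → Bool}

theorem Near.mono {r s : ℕ} (h : r ≤ s) {n n' : ℤ × ℤ} (hn : Near ψ s n n') : Near ψ r n n' := by
  have h' : (r : ℤ) ≤ s := by exact_mod_cast h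
  rcases hn with hn | hn
  · exact Or.inl fun v h1 h2 => hn v (h1.trans h') (h2.trans h')
  · exact Or.inr fun v h1 h2 => hn v (h1.trans h') (h2.trans h')

theorem Near.shift {r : ℕ} {n n' : ℤ × ℤ} (t : ℤ × ℤ)
    (hn : Near ψ (r + (t.1.natAbs + t.2.natAbs)) n n') : Near ψ r (n + t) (n' + t) := by
  have h1 : |t.1| ≤ (t.1.natAbs : ℤ) := by rw [Int.natCast_natAbs]
  have h2 : |t.2| ≤ (t.2.natAbs : ℤ) := by rw [Int.natCast_natAbs]
  have e1 := Int.natCast_nonneg t.1.natAbs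
  have e2 := Int.natCast_nonneg t.2.natAbs
  have key : ∀ v : ℤ × ℤ, |v.1| ≤ r → |v.2| ≤ r → 
      |(t + v).1| ≤ ((r + (t.1.natAbs + t.2.natAbs) : ℕ) : ℤ) ∧
      |(t + v).2| ≤ ((r + (t.1.natAbs + t.2.natAbs) : ℕ) : ℤ) := by
    intro v hv1 hv2
    push_cast at *
    constructor
    · calc |(t + v).1| = |t.1 + v.1| := rfl
        _ ≤ |t.1| + |v.1| := abs_add_le _ _
        _ ≤ _ := by linarith [abs_nonneg t.2]
    · calc |(t + v).2| = |t.2 + v.2| := rfl
        _ ≤ |t.2| + |v.2| := abs_add_le _ _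
        _ ≤ _ := by linarith [abs_nonneg t.1]
  rcases hn with hn | hn
  · refine Or.inl fun v hv1 hv2 => ?_
    rw [add_assoc, add_assoc]
    exact hn _ (key v hv1 hv2).1 (key v hv1 hv2).2
  · refine Or.inr fun v hv1 hv2 => ?_
    rw [add_assoc, add_assoc]
    exact hn _ (key v hv1 hv2).1 (key v hv1 hv2).2

theorem LocalSet.compl {E : Set (ℤ × ℤ)} (h : LocalSet ψ E) : LocalSet ψ Eᶜ := by
  obtain ⟨r, hr⟩ := h
  exact ⟨r, fun n n' hn => not_congr (hr n n' hn)⟩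

theorem LocalSet.union {E F : Set (ℤ × ℤ)} (hE : LocalSet ψ E) (hF : LocalSet ψ F) :
    LocalSet ψ (E ∪ F) := by
  obtain ⟨r, hr⟩ := hE
  obtain ⟨s, hs⟩ := hF
  refine ⟨max r s, fun n n' hn => ?_⟩
  exact or_congr (hr n n' (hn.mono (le_max_left _ _))) (hs n n' (hn.mono (le_max_right _ _)))

theorem LocalSet.inter {E F : Set (ℤ × ℤ)} (hE : LocalSet ψ E) (hF : LocalSet ψ F) :
    LocalSet ψ (E ∩ F) := by
  have := (hE.compl.union hF.compl).compl
  rwa [Set.compl_union, compl_compl, compl_compl] at this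

theorem LocalSet.univ : LocalSet ψ Set.univ := ⟨0, fun _ _ _ => Iff.rfl⟩

theorem LocalSet.empty : LocalSet ψ ∅ := ⟨0, fun _ _ _ => Iff.rfl⟩

theorem LocalSet.shift {E : Set (ℤ × ℤ)} (h : LocalSet ψ E) (t : ℤ × ℤ) :
    LocalSet ψ {n | n + t ∈ E} := by
  obtain ⟨r, hr⟩ := h
  exact ⟨_, fun n n' hn => hr _ _ (Near.shift t hn)⟩

/-- The set where `ψ` takes different values at two given places. -/
theorem LocalSet.ne (s t : ℤ × ℤ) : LocalSet ψ {n | ψ (n + s) ≠ ψ (n + t)} := by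
  have h0 : ∀ t : ℤ × ℤ, LocalSet ψ {n | ψ n ≠ ψ (n + t)} := by
    intro t
    refine ⟨t.1.natAbs + t.2.natAbs, fun n n' hn => ?_⟩
    have h1 : |t.1| ≤ ((t.1.natAbs + t.2.natAbs : ℕ) : ℤ) := by
      push_cast
      linarith [abs_nonneg t.2]
    have h2 : |t.2| ≤ ((t.1.natAbs + t.2.natAbs : ℕ) : ℤ) := by
      push_cast
      linarith [abs_nonneg t.1]
    have h3 : |(0 : ℤ × ℤ).1| ≤ ((t.1.natAbs + t.2.natAbs : ℕ) : ℤ) := by
      simp only [Prod.fst_zero, abs_zero]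
      positivity
    have h4 : |(0 : ℤ × ℤ).2| ≤ ((t.1.natAbs + t.2.natAbs : ℕ) : ℤ) := by
      simp only [Prod.snd_zero, abs_zero]
      positivity
    simp only [Set.mem_ofPred_eq]
    rcases hn with hn | hn
    · have e1 := hn t h1 h2
      have e2 := hn 0 h3 h4
      rw [add_zero, add_zero] at e2
      rw [e1, e2]
    · have e1 := hn t h1 h2
      have e2 := hn 0 h3 h4
      rw [add_zero, add_zero] at e2
      rw [e1, e2]
      cases ψ n' <;> cases ψ (n' + t) <;> simp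
  have := (h0 (t - s)).shift s
  convert this using 1
  ext n
  simp only [Set.mem_ofPred_eq]
  rw [show n + s + (t - s) = n + t by abel]

theorem LocalFn.add {f g : ℤ × ℤ → ℤ} (hf : LocalFn ψ f) (hg : LocalFn ψ g) :
    LocalFn ψ (fun n => f n + g n) := by
  obtain ⟨r, hr⟩ := hf
  obtain ⟨s, hs⟩ := hg
  refine ⟨max r s, fun n n' hn => ?_⟩
  change f n + g n = f n' + g n'
  rw [hr n n' (hn.mono (le_max_left _ _)), hs n n' (hn.mono (le_max_right _ _))]

theorem LocalFn.neg {f : ℤ × ℤ → ℤ} (hf : LocalFn ψ f) : LocalFn ψ (fun n => - f n) := by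
  obtain ⟨r, hr⟩ := hf
  exact ⟨r, fun n n' hn => congrArg _ (hr n n' hn)⟩

theorem LocalFn.zero : LocalFn ψ (fun _ => 0) := ⟨0, fun _ _ _ => rfl⟩

theorem LocalFn.shift {f : ℤ × ℤ → ℤ} (hf : LocalFn ψ f) (t : ℤ × ℤ) :
    LocalFn ψ (fun n => f (n + t)) := by
  obtain ⟨r, hr⟩ := hf
  exact ⟨_, fun n n' hn => hr _ _ (Near.shift t hn)⟩

open Classical in
theorem LocalSet.indicator {E : Set (ℤ × ℤ)} (h : LocalSet ψ E) :
    LocalFn ψ (fun n => if n ∈ E then 1 else 0) := by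
  obtain ⟨r, hr⟩ := h
  refine ⟨r, fun n n' hn => ?_⟩
  simp only [hr n n' hn]

/-- `f` is a sum of differences of local functions in the two coordinate directions. -/
def Cob (ψ : ℤ × ℤ → Bool) (f : ℤ × ℤ → ℤ) : Prop :=
  ∃ u w : ℤ × ℤ → ℤ, LocalFn ψ u ∧ LocalFn ψ w ∧
    ∀ n, f n = (u n - u (n - (1, 0))) + (w n - w (n - (0, 1)))

theorem Cob.add {f g : ℤ × ℤ → ℤ} (hf : Cob ψ f) (hg : Cob ψ g) : Cob ψ (fun n => f n + g n) := by
  obtain ⟨u, w, hu, hw, h⟩ := hf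
  obtain ⟨u', w', hu', hw', h'⟩ := hg
  refine ⟨_, _, hu.add hu', hw.add hw', fun n => ?_⟩
  change f n + g n = _
  rw [h, h']
  ring

theorem Cob.neg {f : ℤ × ℤ → ℤ} (hf : Cob ψ f) : Cob ψ (fun n => - f n) := by
  obtain ⟨u, w, hu, hw, h⟩ := hf
  refine ⟨_, _, hu.neg, hw.neg, fun n => ?_⟩
  change - f n = _
  rw [h]
  ring

theorem Cob.zero : Cob ψ (fun _ => 0) :=
  ⟨_, _, LocalFn.zero, LocalFn.zero, fun n => by simp⟩

theorem Cob.sum {k : ℕ} (f : Fin k → ℤ × ℤ → ℤ) (hf : ∀ i, Cob ψ (f i)) :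
    Cob ψ (fun n => ∑ i, f i n) := by
  induction k with
  | zero => simpa using Cob.zero
  | succ k ih =>
    simp only [Fin.sum_univ_succ]
    exact (hf 0).add (ih _ fun i => hf i.succ)

/-- The translations `v` such that `h - h (· - v)` is a coboundary for all local `h`. -/
def cobGroup (ψ : ℤ × ℤ → Bool) : AddSubgroup (ℤ × ℤ) where
  carrier := {v | ∀ h : ℤ × ℤ → ℤ, LocalFn ψ h → Cob ψ (fun n => h n - h (n - v))}
  zero_mem' := by
    intro h _
    simpa using Cob.zero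
  add_mem' := by
    intro v v' hv hv' h hh
    have h1 := hv h hh
    have h2 := hv' (fun n => h (n + -v)) (hh.shift (-v))
    have h3 := h1.add h2
    convert h3 using 2 with n
    rw [show n - v' + -v = n - (v + v') by abel, show n + -v = n - v by abel]
    ring
  neg_mem' := by
    intro v hv h hh
    have h1 := (hv (fun n => h (n + v)) (hh.shift v)).neg
    convert h1 using 2 with n
    rw [sub_add_cancel, sub_neg_eq_add]
    ring

theorem mem_cobGroup (v : ℤ × ℤ) : v ∈ cobGroup ψ := by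
  have h1 : ((1, 0) : ℤ × ℤ) ∈ cobGroup ψ := by
    intro h hh
    exact ⟨h, _, hh, LocalFn.zero, fun n => by simp⟩
  have h2 : ((0, 1) : ℤ × ℤ) ∈ cobGroup ψ := by
    intro h hh
    exact ⟨_, h, LocalFn.zero, hh, fun n => by simp⟩
  have h3 := add_mem ((cobGroup ψ).zsmul_mem h1 v.1) ((cobGroup ψ).zsmul_mem h2 v.2)
  have : v.1 • ((1, 0) : ℤ × ℤ) + v.2 • ((0, 1) : ℤ × ℤ) = v := by
    ext <;> simp
  rwa [this] at h3

theorem cob_sub (v : ℤ × ℤ) (h : ℤ × ℤ → ℤ) (hh : LocalFn ψ h) :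
    Cob ψ (fun n => h n - h (n - v)) := mem_cobGroup v h hh

end Pool.Agent.U237.Canc
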