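import Mathlib
import Pool.Agent.U237.Canc.Local

/-!
# Vertical walls in a half plane: a set which is not a coboundary
-/

set_option autoImplicit false

namespace Pool.Agent.U237.Canc

open Classical in
/-- The characteristic function of a union of longer and longer, sparser and sparser intervals. -/
noncomputable def chi (x : ℤ) : Bool := decide (∃ N : ℕ, 4 * (N : ℤ) ^ 2 ≤ x ∧ x < 4 * (N : ℤ) ^ 2 + N)

/-- The interval number `s`. -/
theorem chi_interval (s : ℕ) :
    (∀ x : ℤ, 4 * (s : ℤ) ^ 2 - s ≤ x → x < 4 * (s : ℤ) ^ 2 → chi x = false) ∧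
    (∀ x : ℤ, 4 * (s : ℤ) ^ 2 ≤ x → x < 4 * (s : ℤ) ^ 2 + s → chi x = true) ∧
    (∀ x : ℤ, 4 * (s : ℤ) ^ 2 + s ≤ x → x < 4 * (s : ℤ) ^ 2 + s + s → chi x = false) := by
  classical
  refine ⟨fun x h1 h2 => ?_, fun x h1 h2 => ?_, fun x h1 h2 => ?_⟩
  · unfold chi
    rw [decide_eq_false_iff_not]
    rintro ⟨M, hM1, hM2⟩
    have hlt : M < s := by
      by_contra h
      have h' : (s : ℤ) ≤ M := by exact_mod_cast not_lt.1 h
      have h0 : (0 : ℤ) ≤ s := by positivity
      nlinarith
    have h' : (M : ℤ) + 1 ≤ s := by exact_mod_cast hlt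
    have h0 : (0 : ℤ) ≤ M := by positivity
    nlinarith
  · unfold chi
    rw [decide_eq_true_iff]
    exact ⟨s, h1, h2⟩
  · unfold chi
    rw [decide_eq_false_iff_not]
    rintro ⟨M, hM1, hM2⟩
    have h0 : (0 : ℤ) ≤ M := by positivity
    have h0' : (0 : ℤ) ≤ s := by positivity
    rcases le_or_gt M s with h | h
    · have h' : (M : ℤ) ≤ s := by exact_mod_cast h
      nlinarith
    · have h' : (s : ℤ) + 1 ≤ M := by exact_mod_cast h
      nlinarith

/-- The configuration: vertical stripes in the lower half plane. -/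
noncomputable def psi (n : ℤ × ℤ) : Bool := decide (n.2 < 0) && chi n.1

theorem psi_of_nonneg {n : ℤ × ℤ} (h : 0 ≤ n.2) : psi n = false := by
  simp [psi, not_lt.2 h]

theorem psi_of_neg {n : ℤ × ℤ} (h : n.2 < 0) : psi n = chi n.1 := by
  simp [psi, h]

/-- The walls. -/
def S1 : Set (ℤ × ℤ) := {n | n.2 < 0 ∧ chi n.1 ≠ chi (n.1 + 1)}

/-- The stripes on the boundary line. -/
def S2 : Set (ℤ × ℤ) := {n | n.2 = 0 ∧ chi n.1 = true}

/-- The left ends of the stripes. -/
def S3 : Set (ℤ × ℤ) := {n | n.2 = 1 ∧ chi n.1 = false ∧ chi (n.1 + 1) = true}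

theorem sum_telescope (g : ℤ → ℤ) (x0 x1 : ℤ) (h : x0 ≤ x1) :
    ∑ x ∈ Finset.Ico x0 x1, (g x - g (x - 1)) = g (x1 - 1) - g (x0 - 1) := by
  induction x1, h using Int.leInduction with
  | base => simp
  | succ k hk ih =>
    have : Finset.Ico x0 (k + 1) = insert k (Finset.Ico x0 k) := by
      ext y
      simp only [Finset.mem_Ico, Finset.mem_insert]
      omega
    rw [this, Finset.sum_insert (by simp), ih]
    simp

theorem sum_shift (g : ℤ → ℤ) (x0 x1 t : ℤ) :
    ∑ x ∈ Finset.Ico (x0 + t) (x1 + t), g x = ∑ x ∈ Finset.Ico x0 x1, g (x + t) := by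
  symm
  apply Finset.sum_bij (fun x _ => x + t)
  · intro x hx
    simp only [Finset.mem_Ico] at *
    omega
  · intro x _ y _ h
    simpa using h
  · intro y hy
    refine ⟨y - t, ?_, by ring⟩
    simp only [Finset.mem_Ico] at *
    omega
  · intro x _
    rfl

open Classical in
theorem not_cob : ¬ Cob psi (fun n => if n ∈ S3 then 1 else 0) := by
  rintro ⟨u, w, ⟨ru, hu⟩, ⟨rw', hw⟩, huw⟩
  set r : ℕ := max ru rw' + 1 with hr
  have hu' : ∀ n n', Near psi r n n' → u n = u n' :=
    fun n n' h => hu n n' (h.mono ((le_max_left _ _).trans (Nat.le_succ _)))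
  have hw' : ∀ n n', Near psi r n n' → w n = w n' :=
    fun n n' h => hw n n' (h.mono ((le_max_right _ _).trans (Nat.le_succ _)))
  set s : ℕ := 4 * r + 8 with hs
  obtain ⟨c1, c2, c3⟩ := chi_interval s
  set a : ℤ := 4 * (s : ℤ) ^ 2 with ha
  set b : ℤ := a + s with hb
  have hsr : (s : ℤ) = 4 * r + 8 := by rw [hs]; push_cast; ring
  have hr1 : (1 : ℤ) ≤ r := by exact_mod_cast (Nat.le_add_left 1 (max ru rw'))
  have hr0 : (0 : ℤ) ≤ r := by positivity
  -- the uniform point
  set z : ℤ × ℤ := (0, r + 1) with hz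
  have hzf : ∀ v : ℤ × ℤ, |v.1| ≤ r → |v.2| ≤ r → psi (z + v) = false := by
    intro v _ hv
    apply psi_of_nonneg
    rw [abs_le] at hv
    change 0 ≤ (r : ℤ) + 1 + v.2
    linarith
  have unif : ∀ n : ℤ × ℤ, (∀ v : ℤ × ℤ, |v.1| ≤ r → |v.2| ≤ r → psi (n + v) = false) →
      Near psi r n z := by
    intro n hn
    exact Or.inl fun v h1 h2 => by rw [hn v h1 h2, hzf v h1 h2]
  have unif' : ∀ n : ℤ × ℤ, (∀ v : ℤ × ℤ, |v.1| ≤ r → |v.2| ≤ r → psi (n + v) = true) →
      Near psi r n z := by
    intro n hn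
    exact Or.inr fun v h1 h2 => by rw [hn v h1 h2, hzf v h1 h2]; rfl
  have psi_false : ∀ x y : ℤ, chi x = false → psi (x, y) = false := by
    intro x y h
    simp [psi, h]
  have f1 : ∀ y, u (a - r - 1, y) = u z := by
    intro y
    apply hu'
    apply unif
    intro v hv _
    rw [abs_le] at hv
    apply psi_false
    apply c1
    · change a - s ≤ a - r - 1 + v.1
      linarith
    · change a - r - 1 + v.1 < a
      linarith
  have f2 : ∀ y, u (b + r, y) = u z := by
    intro y
    apply hu'
    apply unif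
    intro v hv _
    rw [abs_le] at hv
    apply psi_false
    apply c3
    · change b ≤ b + r + v.1
      linarith
    · change b + r + v.1 < b + s
      linarith
  have f3 : ∀ x, w (x, r + 1) = w z := by
    intro x
    apply hw'
    apply unif
    intro v _ hv
    apply psi_of_nonneg
    rw [abs_le] at hv
    change 0 ≤ (r : ℤ) + 1 + v.2
    linarith
  have f4 : ∀ x, a + r ≤ x → x < b - r → w (x, -r - 1) = w z := by
    intro x hx1 hx2
    apply hw'
    apply unif'
    intro v hv1 hv2
    rw [abs_le] at hv1 hv2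
    rw [psi_of_neg (by change -(r : ℤ) - 1 + v.2 < 0; linarith)]
    apply c2
    · change a ≤ x + v.1
      linarith
    · change x + v.1 < b
      linarith
  have f5 : ∀ t : ℤ, -r ≤ t → t < r → w (t + b, -r - 1) = w (t + a, -r - 1) := by
    intro t ht1 ht2
    apply hw'
    refine Or.inr fun v hv1 hv2 => ?_
    rw [abs_le] at hv1 hv2
    rw [psi_of_neg (by change -(r : ℤ) - 1 + v.2 < 0; linarith),
      psi_of_neg (by change -(r : ℤ) - 1 + v.2 < 0; linarith)]
    change chi (t + b + v.1) = !chi (t + a + v.1)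
    rcases lt_or_ge (t + v.1) 0 with h | h
    · rw [c2 (t + b + v.1) (by linarith) (by linarith), c1 (t + a + v.1) (by linarith) (by linarith)]
      rfl
    · rw [c3 (t + b + v.1) (by linarith) (by linarith), c2 (t + a + v.1) (by linarith) (by linarith)]
      rfl
  -- the sum over the rectangle
  have total : ∑ x ∈ Finset.Ico (a - r) (b + r + 1), ∑ y ∈ Finset.Ico (-(r : ℤ)) (r + 2),
      (if ((x, y) : ℤ × ℤ) ∈ S3 then (1 : ℤ) else 0) = 1 := by
    rw [Finset.sum_eq_single (a - 1), Finset.sum_eq_single 1]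
    · rw [if_pos]
      refine ⟨rfl, ?_, ?_⟩
      · apply c1 <;> linarith
      · rw [sub_add_cancel]
        apply c2 <;> linarith
    · intro y _ hy
      rw [if_neg]
      rintro ⟨h, -⟩
      exact hy h
    · intro h
      exfalso
      apply h
      rw [Finset.mem_Ico]
      constructor <;> linarith
    · intro x hx hxa
      rw [Finset.mem_Ico] at hx
      apply Finset.sum_eq_zero
      intro y _
      rw [if_neg]
      rintro ⟨-, h1, h2⟩
      simp only at h1 h2
      rcases lt_or_ge (x + 1) a with h | h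
      · rw [c1 (x + 1) (by linarith) h] at h2
        exact absurd h2 (by decide)
      · have hxa' : a ≤ x := by
          rcases lt_or_ge x a with h' | h'
          · exfalso
            apply hxa
            linarith
          · exact h'
        rcases lt_or_ge x b with h' | h'
        · rw [c2 x hxa' h'] at h1
          exact absurd h1 (by decide)
        · rw [c3 (x + 1) (by linarith) (by linarith)] at h2
          exact absurd h2 (by decide)
    · intro h
      exfalso
      apply h
      rw [Finset.mem_Ico]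
      constructor <;> linarith
  have split : ∑ x ∈ Finset.Ico (a - r) (b + r + 1), ∑ y ∈ Finset.Ico (-(r : ℤ)) (r + 2),
      (if ((x, y) : ℤ × ℤ) ∈ S3 then (1 : ℤ) else 0) =
      ∑ x ∈ Finset.Ico (a - r) (b + r + 1), (w z - w (x, -r - 1)) := by
    have e1 : ∀ x y : ℤ, (if ((x, y) : ℤ × ℤ) ∈ S3 then (1 : ℤ) else 0) =
        (u (x, y) - u (x - 1, y)) + (w (x, y) - w (x, y - 1)) := by
      intro x y
      have := huw (x, y)
      simpa using this
    simp only [e1, Finset.sum_add_distrib]
    rw [Finset.sum_comm]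
    have e2 : ∀ y, ∑ x ∈ Finset.Ico (a - r) (b + r + 1), (u (x, y) - u (x - 1, y)) = 0 := by
      intro y
      rw [sum_telescope (fun x => u (x, y)) _ _ (by linarith)]
      rw [show b + r + 1 - 1 = b + (r : ℤ) by ring, f1, f2, sub_self]
    have e3 : ∀ x, ∑ y ∈ Finset.Ico (-(r : ℤ)) (r + 2), (w (x, y) - w (x, y - 1)) =
        w z - w (x, -r - 1) := by
      intro x
      rw [sum_telescope (fun y => w (x, y)) _ _ (by linarith)]
      rw [show (r : ℤ) + 2 - 1 = r + 1 by ring, f3]
    simp only [e2, e3, Finset.sum_const_zero, zero_add]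
  have parts : ∑ x ∈ Finset.Ico (a - r) (b + r + 1), (w z - w (x, -r - 1)) =
      2 * ∑ t ∈ Finset.Ico (-(r : ℤ)) r, (w z - w (t + a, -r - 1)) := by
    have g1 : Finset.Ico (a - r) (b + r + 1) = Finset.Ico (a - r) (a + r) ∪
        (Finset.Ico (a + r) (b - r) ∪ (Finset.Ico (b - r) (b + r) ∪ {b + (r : ℤ)})) := by
      ext y
      simp only [Finset.mem_union, Finset.mem_Ico, Finset.mem_singleton]
      omega
    have d1 : Disjoint (Finset.Ico (a - r) (a + (r : ℤ)))
        (Finset.Ico (a + r) (b - r) ∪ (Finset.Ico (b - r) (b + r) ∪ {b + (r : ℤ)})) := by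
      rw [Finset.disjoint_left]
      intro y
      simp only [Finset.mem_union, Finset.mem_Ico, Finset.mem_singleton]
      omega
    have d2 : Disjoint (Finset.Ico (a + r) (b - (r : ℤ)))
        (Finset.Ico (b - r) (b + r) ∪ {b + (r : ℤ)}) := by
      rw [Finset.disjoint_left]
      intro y
      simp only [Finset.mem_union, Finset.mem_Ico, Finset.mem_singleton]
      omega
    have d3 : Disjoint (Finset.Ico (b - r) (b + (r : ℤ))) {b + (r : ℤ)} := by
      rw [Finset.disjoint_left]
      intro y
      simp only [Finset.mem_Ico, Finset.mem_singleton]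
      omega
    rw [g1, Finset.sum_union d1, Finset.sum_union d2, Finset.sum_union d3, Finset.sum_singleton]
    have h1 : ∑ x ∈ Finset.Ico (a + r) (b - (r : ℤ)), (w z - w (x, -r - 1)) = 0 := by
      apply Finset.sum_eq_zero
      intro x hx
      rw [Finset.mem_Ico] at hx
      rw [f4 x hx.1 hx.2, sub_self]
    have h2 : w (b + (r : ℤ), -r - 1) = w z := by
      apply hw'
      apply unif
      intro v hv _
      rw [abs_le] at hv
      apply psi_false
      apply c3
      · change b ≤ b + r + v.1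
        linarith
      · change b + r + v.1 < b + s
        linarith
    have h3 : ∑ x ∈ Finset.Ico (a - r) (a + (r : ℤ)), (w z - w (x, -r - 1)) =
        ∑ t ∈ Finset.Ico (-(r : ℤ)) r, (w z - w (t + a, -r - 1)) := by
      rw [← sum_shift (fun x => w z - w (x, -r - 1))]
      congr 2 <;> ring
    have h4 : ∑ x ∈ Finset.Ico (b - r) (b + (r : ℤ)), (w z - w (x, -r - 1)) =
        ∑ t ∈ Finset.Ico (-(r : ℤ)) r, (w z - w (t + a, -r - 1)) := by
      have e : ∑ x ∈ Finset.Ico (b - r) (b + (r : ℤ)), (w z - w (x, -r - 1)) =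
          ∑ t ∈ Finset.Ico (-(r : ℤ)) r, (w z - w (t + b, -r - 1)) := by
        rw [← sum_shift (fun x => w z - w (x, -r - 1))]
        congr 2 <;> ring
      rw [e]
      apply Finset.sum_congr rfl
      intro t ht
      rw [Finset.mem_Ico] at ht
      rw [f5 t ht.1 ht.2]
    rw [h1, h2, h3, h4]
    ring
  rw [total, parts] at split
  omega

end Pool.Agent.U237.Canc
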